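import Mathlib

/-!
# Partial rounding with exceptional rows
-/

set_option autoImplicit false

namespace Pool.Agent.R522.Spec

open Finset

variable {m n : ℕ}

/-- a nonzero vector supported on `Y` in the kernel of fewer than `|Y|` rows -/
theorem exists_ker (a : Fin m → Fin n → ℝ) (R : Finset (Fin m)) (Y : Finset (Fin n))
    (h : R.card < Y.card) :
    ∃ d : Fin n → ℝ, (∀ j, j ∉ Y → d j = 0) ∧ (∃ j ∈ Y, d j ≠ 0) ∧
      ∀ i ∈ R, ∑ j, a i j * d j = 0 := by
  classical
  let f : (Y → ℝ) →ₗ[ℝ] (R → ℝ) :=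
    Matrix.mulVecLin (Matrix.of fun (i : R) (j : Y) => a i j)
  have hf : LinearMap.ker f ≠ ⊥ := by
    apply LinearMap.ker_ne_bot_of_finrank_lt
    simpa using h
  obtain ⟨v, hv, hv0⟩ := (Submodule.ne_bot_iff _).1 hf
  refine ⟨fun j => if hj : j ∈ Y then v ⟨j, hj⟩ else 0, fun j hj => by simp [hj], ?_, ?_⟩
  · obtain ⟨j, hj⟩ := Function.ne_iff.1 hv0
    exact ⟨j, j.2, by simpa using hj⟩
  · intro i hi
    have h1 := congrFun (LinearMap.mem_ker.1 hv) ⟨i, hi⟩
    simp only [f, Matrix.mulVecLin_apply, Matrix.mulVec, dotProduct, Matrix.of_apply,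
      Pi.zero_apply] at h1
    refine Eq.trans ?_ h1
    dsimp only
    rw [← Finset.sum_subset (subset_univ Y) (fun j _ hj => by simp [hj]),
      ← Finset.sum_coe_sort Y (fun j => a i j * (if hj : j ∈ Y then v ⟨j, hj⟩ else 0))]
    refine Finset.sum_congr rfl fun j _ => ?_
    simp

/-- moving to the boundary -/
theorem exists_move (x d : Fin n → ℝ) (Y : Finset (Fin n)) (hx : ∀ j ∈ Y, |x j| < 1)
    (hx1 : ∀ j, |x j| ≤ 1) (hd : ∀ j, j ∉ Y → d j = 0) (hne : ∃ j ∈ Y, d j ≠ 0) :
    ∃ s : ℝ, (∀ j, |x j + s * d j| ≤ 1) ∧ ∃ j ∈ Y, |x j + s * d j| = 1 := by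
  classical
  set Z := Y.filter (fun j => d j ≠ 0) with hZ
  have hZne : Z.Nonempty := by
    obtain ⟨j, hj, hj2⟩ := hne
    exact ⟨j, mem_filter.2 ⟨hj, hj2⟩⟩
  let g : Fin n → ℝ := fun j => (1 - (if 0 < d j then x j else - x j)) / |d j|
  obtain ⟨j0, hj0, hmin⟩ := Finset.exists_min_image Z g hZne
  have key : ∀ j ∈ Z, ∀ s, 0 ≤ s → s ≤ g j → |x j + s * d j| ≤ 1 := by
    intro j hj s hs0 hs
    obtain ⟨hjY, hdj⟩ := mem_filter.1 hj
    have h1 := abs_lt.1 (hx j hjY)
    simp only [g] at hs
    rw [le_div_iff₀ (abs_pos.2 hdj)] at hs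
    rw [abs_le]
    rcases lt_or_gt_of_ne hdj with h | h
    · rw [if_neg (not_lt.2 h.le), abs_of_neg h] at hs
      have h2 : s * d j ≤ 0 := mul_nonpos_of_nonneg_of_nonpos hs0 h.le
      constructor <;> linarith [h1.1, h1.2]
    · rw [if_pos h, abs_of_pos h] at hs
      have h2 : 0 ≤ s * d j := mul_nonneg hs0 h.le
      constructor <;> linarith [h1.1, h1.2]
  have g0 : ∀ j ∈ Z, 0 ≤ g j := by
    intro j hj
    have h1 := abs_lt.1 (hx j (mem_filter.1 hj).1)
    simp only [g]
    apply div_nonneg _ (abs_nonneg _)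
    split_ifs <;> linarith [h1.1, h1.2]
  refine ⟨g j0, fun j => ?_, j0, (mem_filter.1 hj0).1, ?_⟩
  · by_cases hj : j ∈ Z
    · exact key j hj _ (g0 j0 hj0) (hmin j hj)
    · have : d j = 0 := by
        by_contra h
        by_cases hY : j ∈ Y
        · exact hj (mem_filter.2 ⟨hY, h⟩)
        · exact h (hd j hY)
      rw [this, mul_zero, add_zero]
      exact hx1 j
  · obtain ⟨hjY, hdj⟩ := mem_filter.1 hj0
    simp only [g]
    rcases lt_or_gt_of_ne hdj with h | h
    · rw [if_neg (not_lt.2 h.le), abs_of_neg h]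
      have : x j0 + (1 - - x j0) / (- d j0) * d j0 = -1 := by
        field_simp
        ring
      rw [this]; norm_num
    · rw [if_pos h, abs_of_pos h]
      have : x j0 + (1 - x j0) / (d j0) * d j0 = 1 := by
        field_simp
        ring
      rw [this]; norm_num

/-- the coordinates in `(-1, 1)` -/
noncomputable def alive (x : Fin n → ℝ) : Finset (Fin n) := univ.filter (fun j => |x j| < 1)

theorem frac (a : Fin m → Fin n → ℝ) (T : Fin m → ℝ) (hT : ∀ i, 0 ≤ T i)
    (E : Finset (Fin m)) (F : Finset (Fin n)) (q : ℕ)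
    (h : ∀ Y ⊆ F, q < Y.card →
      (univ.filter (fun i => i ∉ E ∧ T i < ∑ j ∈ Y, |a i j|)).card + E.card < Y.card)
    (x0 : Fin n → ℝ) (hx0 : ∀ j, |x0 j| ≤ 1) (hF : ∀ j, j ∉ F → |x0 j| = 1) :
    ∃ x : Fin n → ℝ, (∀ j, |x j| ≤ 1) ∧ (∀ j, j ∉ F → x j = x0 j) ∧ (alive x).card ≤ q ∧
      (∀ i ∈ E, ∑ j, a i j * (x j - x0 j) = 0) ∧
      ∀ i, i ∉ E → |∑ j, a i j * (x j - x0 j)| ≤ 2 * T i := by
  classical
  let Q : (Fin n → ℝ) → Prop := fun x => (∀ j, |x j| ≤ 1) ∧ (∀ j, j ∉ F → x j = x0 j) ∧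
    (∀ i ∈ E, ∑ j, a i j * (x j - x0 j) = 0) ∧
    ∀ i, i ∉ E → ∃ z : Fin n → ℝ, (∀ j, |z j| ≤ 1) ∧ ∑ j, a i j * (z j - x0 j) = 0 ∧
      (z = x ∨ (∑ j ∈ alive z, |a i j| ≤ T i ∧ ∀ j, |z j| = 1 → x j = z j))
  have hQ0 : Q x0 := ⟨hx0, fun _ _ => rfl, fun i _ => by simp, fun i _ =>
    ⟨x0, hx0, by simp, Or.inl rfl⟩⟩
  have step : ∀ x, Q x → q < (alive x).card → ∃ x', Q x' ∧ (alive x').card < (alive x).card := by
    intro x ⟨h1, h2, h3, h4⟩ hq
    have hYF : alive x ⊆ F := by
      intro j hj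
      by_contra hjF
      have := (mem_filter.1 hj).2
      rw [h2 j hjF, hF j hjF] at this
      exact lt_irrefl _ this
    set R := univ.filter (fun i => i ∉ E ∧ T i < ∑ j ∈ alive x, |a i j|) ∪ E with hR
    have hRc : R.card < (alive x).card := (card_union_le _ _).trans_lt (h _ hYF hq)
    obtain ⟨d, hd1, hd2, hd3⟩ := exists_ker a R (alive x) hRc
    obtain ⟨s, hs1, j0, hj0, hs2⟩ := exists_move x d (alive x) (fun j hj => (mem_filter.1 hj).2)
      h1 hd1 hd2
    have hfix : ∀ j, j ∉ alive x → x j + s * d j = x j := fun j hj => by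
      rw [hd1 j hj, mul_zero, add_zero]
    have hrow : ∀ i ∈ R, ∑ j, a i j * (x j + s * d j - x0 j) = ∑ j, a i j * (x j - x0 j) := by
      intro i hi
      have e : ∑ j, a i j * (x j + s * d j - x0 j) =
          ∑ j, a i j * (x j - x0 j) + s * ∑ j, a i j * d j := by
        rw [Finset.mul_sum, ← Finset.sum_add_distrib]
        exact sum_congr rfl fun j _ => by ring
      rw [e, hd3 i hi, mul_zero, add_zero]
    refine ⟨fun j => x j + s * d j, ⟨hs1, ?_, ?_, ?_⟩, ?_⟩
    · intro j hj
      dsimp only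
      rw [hfix j (fun h => hj (hYF h)), h2 j hj]
    · intro i hi
      dsimp only
      rw [hrow i (mem_union_right _ hi), h3 i hi]
    · intro i hi
      by_cases hiR : T i < ∑ j ∈ alive x, |a i j|
      · -- the row is still active
        obtain ⟨z, z1, z2, z3⟩ := h4 i hi
        have hzx : z = x := by
          rcases z3 with hz | ⟨z4, z5⟩
          · exact hz
          · exfalso
            have hsub : alive x ⊆ alive z := by
              intro j hj
              refine mem_filter.2 ⟨mem_univ _, ?_⟩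
              by_contra hc
              have h6 : |z j| = 1 := le_antisymm (z1 j) (not_lt.1 hc)
              have h7 := (mem_filter.1 hj).2
              rw [z5 j h6, h6] at h7
              exact lt_irrefl _ h7
            have := Finset.sum_le_sum_of_subset_of_nonneg hsub
              (fun j _ _ => abs_nonneg (a i j))
            linarith
        have hi2 : i ∈ R := mem_union_left _ (mem_filter.2 ⟨mem_univ _, hi, hiR⟩)
        refine ⟨fun j => x j + s * d j, hs1, ?_, Or.inl rfl⟩
        dsimp only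
        rw [hrow i hi2, ← hzx]
        exact z2
      · obtain ⟨z, z1, z2, z3⟩ := h4 i hi
        rcases z3 with hz | ⟨z4, z5⟩
        · refine ⟨z, z1, z2, Or.inr ⟨?_, ?_⟩⟩
          · rw [hz]; exact not_lt.1 hiR
          · intro j hj
            dsimp only
            rw [hz] at hj ⊢
            refine hfix j fun hc => ?_
            have := (mem_filter.1 hc).2
            rw [hj] at this
            exact lt_irrefl _ this
        · refine ⟨z, z1, z2, Or.inr ⟨z4, fun j hj => ?_⟩⟩
          dsimp only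
          rw [← z5 j hj]
          refine hfix j fun hc => ?_
          have := (mem_filter.1 hc).2
          rw [z5 j hj, hj] at this
          exact lt_irrefl _ this
    · apply Finset.card_lt_card
      refine ⟨fun j hj => ?_, fun hsub => ?_⟩
      · by_contra hc
        have := (mem_filter.1 hj).2
        dsimp only at this
        rw [hfix j hc] at this
        exact hc (mem_filter.2 ⟨mem_univ _, this⟩)
      · have := (mem_filter.1 (hsub hj0)).2
        dsimp only at this
        rw [hs2] at this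
        exact lt_irrefl _ this
  have main : ∀ N : ℕ, ∀ x, Q x → (alive x).card ≤ N → ∃ x', Q x' ∧ (alive x').card ≤ q := by
    intro N
    induction N with
    | zero => intro x hx hN; exact ⟨x, hx, by omega⟩
    | succ N ih =>
      intro x hx hN
      by_cases hq : (alive x).card ≤ q
      · exact ⟨x, hx, hq⟩
      · obtain ⟨x', h5, h6⟩ := step x hx (not_le.1 hq)
        exact ih x' h5 (by omega)
  obtain ⟨x, ⟨h1, h2, h3, h4⟩, h5⟩ := main _ x0 hQ0 le_rfl
  refine ⟨x, h1, h2, h5, h3, fun i hi => ?_⟩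
  obtain ⟨z, z1, z2, z3⟩ := h4 i hi
  rcases z3 with hz | ⟨z4, z5⟩
  · rw [← hz, z2, abs_zero]
    have := hT i
    linarith
  · have e : ∑ j, a i j * (x j - x0 j) = ∑ j ∈ alive z, a i j * (x j - z j) := by
      have e1 : ∑ j, a i j * (x j - x0 j) =
          ∑ j, a i j * (x j - z j) + ∑ j, a i j * (z j - x0 j) := by
        rw [← Finset.sum_add_distrib]
        exact sum_congr rfl fun j _ => by ring
      rw [e1, z2, add_zero]
      symm
      apply Finset.sum_subset (subset_univ _)
      intro j _ hj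
      have h6 : |z j| = 1 := by
        by_contra hc
        exact hj (mem_filter.2 ⟨mem_univ _, lt_of_le_of_ne (z1 j) hc⟩)
      rw [z5 j h6, sub_self, mul_zero]
    rw [e]
    calc |∑ j ∈ alive z, a i j * (x j - z j)| ≤ ∑ j ∈ alive z, |a i j * (x j - z j)| :=
          Finset.abs_sum_le_sum_abs _ _
      _ ≤ ∑ j ∈ alive z, 2 * |a i j| := by
          refine Finset.sum_le_sum fun j _ => ?_
          rw [abs_mul]
          have h7 : |x j - z j| ≤ 2 := by
            have := abs_sub (x j) (z j)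
            have := h1 j
            have := z1 j
            linarith
          have := mul_le_mul_of_nonneg_left h7 (abs_nonneg (a i j))
          linarith
      _ = 2 * ∑ j ∈ alive z, |a i j| := by rw [Finset.mul_sum]
      _ ≤ 2 * T i := by linarith

end Pool.Agent.R522.Spec
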