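import Mathlib

/-!
# The quadratic form of a Gram matrix on indicator vectors
-/

set_option autoImplicit false

namespace Pool.Agent.R522.Spec

open Finset

variable {m n : ℕ}

/-- The eigenvalues of `Aᵀ A` (the squares of the singular values of `A`), with multiplicity. -/
noncomputable def ev (A : Matrix (Fin m) (Fin n) ℝ) : Fin n → ℝ :=
  (Matrix.isHermitian_conjTranspose_mul_self A).eigenvalues

/-- orthonormal eigenvectors -/
noncomputable def eb (A : Matrix (Fin m) (Fin n) ℝ) :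
    OrthonormalBasis (Fin n) ℝ (EuclideanSpace ℝ (Fin n)) :=
  (Matrix.isHermitian_conjTranspose_mul_self A).eigenvectorBasis

theorem eb_spec (A : Matrix (Fin m) (Fin n) ℝ) (k : Fin n) (j : Fin n) :
    ∑ i, A i j * ∑ l, A i l * (eb A k) l = ev A k * (eb A k) j := by
  have h := congrFun ((Matrix.isHermitian_conjTranspose_mul_self A).mulVec_eigenvectorBasis k) j
  rw [← Matrix.mulVec_mulVec] at h
  simp only [Matrix.mulVec, dotProduct, Matrix.conjTranspose_apply, star_trivial] at h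
  exact h

theorem inner_eb (A : Matrix (Fin m) (Fin n) ℝ) (k : Fin n) (x : Fin n → ℝ) :
    ∑ i, (∑ l, A i l * (eb A k) l) * (∑ l, A i l * x l) =
      ev A k * ∑ j, (eb A k) j * x j := by
  have h : ∑ i, (∑ l, A i l * (eb A k) l) * (∑ l, A i l * x l) =
      ∑ j, (∑ i, A i j * ∑ l, A i l * (eb A k) l) * x j := by
    have e1 : ∀ i, (∑ l, A i l * (eb A k) l) * (∑ l, A i l * x l) =
        ∑ j, A i j * (∑ l, A i l * (eb A k) l) * x j := by
      intro i
      rw [Finset.mul_sum]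
      exact Finset.sum_congr rfl fun j _ => by ring
    simp only [e1]
    rw [Finset.sum_comm]
    refine Finset.sum_congr rfl fun j _ => ?_
    rw [Finset.sum_mul]
  rw [h, Finset.mul_sum]
  refine Finset.sum_congr rfl fun j _ => ?_
  rw [eb_spec]
  ring

theorem expand (A : Matrix (Fin m) (Fin n) ℝ) (x : Fin n → ℝ) (l : Fin n) :
    x l = ∑ k, (∑ j, (eb A k) j * x j) * (eb A k) l := by
  have h := (eb A).sum_repr (WithLp.toLp 2 x)
  have h2 := congrArg (fun v : EuclideanSpace ℝ (Fin n) => v l) h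
  simp only [WithLp.ofLp_sum, WithLp.ofLp_smul, Finset.sum_apply, Pi.smul_apply, smul_eq_mul,
    OrthonormalBasis.repr_apply_apply] at h2
  rw [← h2]
  refine Finset.sum_congr rfl fun k _ => ?_
  congr 1
  rw [PiLp.inner_apply]
  refine Finset.sum_congr rfl fun j _ => ?_
  simp [mul_comm]

/-- Parseval -/
theorem parseval (A : Matrix (Fin m) (Fin n) ℝ) (x : Fin n → ℝ) :
    ∑ k, (∑ j, (eb A k) j * x j) ^ 2 = ∑ j, x j ^ 2 := by
  have h : ∀ j, x j ^ 2 = ∑ k, (∑ i, (eb A k) i * x i) * ((eb A k) j * x j) := by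
    intro j
    rw [sq]
    nth_rewrite 1 [expand A x j]
    rw [Finset.sum_mul]
    exact Finset.sum_congr rfl fun k _ => by ring
  simp only [h]
  rw [Finset.sum_comm]
  refine Finset.sum_congr rfl fun k _ => ?_
  rw [sq, ← Finset.mul_sum]

/-- `‖A x‖² = ∑ μ_k ⟨u_k, x⟩²` -/
theorem quad (A : Matrix (Fin m) (Fin n) ℝ) (x : Fin n → ℝ) :
    ∑ i, (∑ l, A i l * x l) ^ 2 = ∑ k, ev A k * (∑ j, (eb A k) j * x j) ^ 2 := by
  have h : ∀ i, ∑ l, A i l * x l = ∑ k, (∑ j, (eb A k) j * x j) * ∑ l, A i l * (eb A k) l := by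
    intro i
    have e : ∀ l, A i l * x l = ∑ k, (∑ j, (eb A k) j * x j) * (A i l * (eb A k) l) := by
      intro l
      nth_rewrite 1 [expand A x l]
      rw [Finset.mul_sum]
      exact Finset.sum_congr rfl fun k _ => by ring
    simp only [e]
    rw [Finset.sum_comm]
    exact Finset.sum_congr rfl fun k _ => by rw [← Finset.mul_sum]
  have h2 : ∀ i, (∑ l, A i l * x l) ^ 2 =
      ∑ k, (∑ j, (eb A k) j * x j) * ((∑ l, A i l * (eb A k) l) * (∑ l, A i l * x l)) := by
    intro i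
    rw [sq]
    nth_rewrite 1 [h i]
    rw [Finset.sum_mul]
    exact Finset.sum_congr rfl fun k _ => by ring
  simp only [h2]
  rw [Finset.sum_comm]
  refine Finset.sum_congr rfl fun k _ => ?_
  rw [← Finset.mul_sum, inner_eb]
  ring

theorem eb_sq (A : Matrix (Fin m) (Fin n) ℝ) (k : Fin n) : ∑ j, (eb A k) j ^ 2 = 1 := by
  have h := (eb A).orthonormal.1 k
  have h2 : ‖eb A k‖ ^ 2 = 1 := by rw [h]; norm_num
  rw [EuclideanSpace.norm_sq_eq] at h2
  simpa using h2

theorem ev_nonneg (A : Matrix (Fin m) (Fin n) ℝ) (k : Fin n) : 0 ≤ ev A k :=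
  (Matrix.posSemidef_conjTranspose_mul_self A).eigenvalues_nonneg k

/-- `μ_k = ‖A u_k‖²` -/
theorem ev_eq (A : Matrix (Fin m) (Fin n) ℝ) (k : Fin n) :
    ev A k = ∑ i, (∑ l, A i l * (eb A k) l) ^ 2 := by
  have h := inner_eb A k (fun l => (eb A k) l)
  have h2 : ∑ j, (eb A k) j * (eb A k) j = 1 := by
    rw [← eb_sq A k]; exact Finset.sum_congr rfl fun j _ => by ring
  rw [h2, mul_one] at h
  rw [← h]
  exact Finset.sum_congr rfl fun i _ => by ring

/-- the sum of the eigenvalues above `c`, divided by `c` -/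
noncomputable def exc (A : Matrix (Fin m) (Fin n) ℝ) (c : ℝ) : ℝ :=
  ∑ k ∈ univ.filter (fun k => c < ev A k), ev A k / c

/-- the weight -/
noncomputable def wt (A : Matrix (Fin m) (Fin n) ℝ) (c : ℝ) (j : Fin n) : ℝ :=
  ∑ k ∈ univ.filter (fun k => c < ev A k), ev A k * (eb A k) j ^ 2

theorem wt_nonneg (A : Matrix (Fin m) (Fin n) ℝ) (c : ℝ) (j : Fin n) : 0 ≤ wt A c j :=
  Finset.sum_nonneg fun k _ => mul_nonneg (ev_nonneg A k) (sq_nonneg _)

theorem exc_nonneg (A : Matrix (Fin m) (Fin n) ℝ) (c : ℝ) (hc : 0 < c) : 0 ≤ exc A c :=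
  Finset.sum_nonneg fun k _ => div_nonneg (ev_nonneg A k) hc.le

theorem wt_sum (A : Matrix (Fin m) (Fin n) ℝ) (c : ℝ) (hc : 0 < c) :
    ∑ j, wt A c j = c * exc A c := by
  unfold wt exc
  rw [Finset.sum_comm, Finset.mul_sum]
  refine Finset.sum_congr rfl fun k _ => ?_
  rw [← Finset.mul_sum, eb_sq]
  field_simp

/-- The quadratic form on the indicator vector of `X`. -/
theorem indicator (A : Matrix (Fin m) (Fin n) ℝ) (c : ℝ) (hc : 0 < c) (X : Finset (Fin n)) :
    ∑ i, (∑ l ∈ X, A i l) ^ 2 ≤ X.card * (c + ∑ j ∈ X, wt A c j) := by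
  classical
  set x : Fin n → ℝ := fun j => if j ∈ X then 1 else 0 with hx
  have h1 : ∀ i, ∑ l ∈ X, A i l = ∑ l, A i l * x l := by
    intro i
    simp [hx]
  have h2 : ∀ k, ∑ j, (eb A k) j * x j = ∑ j ∈ X, (eb A k) j := by
    intro k
    simp [hx]
  have h3 : ∑ j, x j ^ 2 = X.card := by
    simp [hx]
  simp only [h1]
  rw [quad]
  have h4 : ∀ k, ev A k * (∑ j, (eb A k) j * x j) ^ 2 ≤ c * (∑ j, (eb A k) j * x j) ^ 2 +
      (if c < ev A k then ev A k * (X.card * ∑ j ∈ X, (eb A k) j ^ 2) else 0) := by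
    intro k
    split_ifs with hk
    · have h5 : (∑ j, (eb A k) j * x j) ^ 2 ≤ X.card * ∑ j ∈ X, (eb A k) j ^ 2 := by
        rw [h2]
        exact sq_sum_le_card_mul_sum_sq
      have h6 := mul_le_mul_of_nonneg_left h5 (ev_nonneg A k)
      have h7 : 0 ≤ c * (∑ j, (eb A k) j * x j) ^ 2 := mul_nonneg hc.le (sq_nonneg _)
      linarith
    · have h5 := mul_le_mul_of_nonneg_right (not_lt.1 hk) (sq_nonneg (∑ j, (eb A k) j * x j))
      linarith
  refine (Finset.sum_le_sum fun k _ => h4 k).trans ?_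
  rw [Finset.sum_add_distrib, ← Finset.mul_sum, parseval, h3, mul_add, ← Finset.sum_filter]
  have h8 : ∑ k ∈ univ.filter (fun k => c < ev A k), ev A k * (X.card * ∑ j ∈ X, (eb A k) j ^ 2)
      = X.card * ∑ j ∈ X, wt A c j := by
    unfold wt
    rw [Finset.sum_comm, Finset.mul_sum]
    refine Finset.sum_congr rfl fun k _ => ?_
    rw [← Finset.mul_sum]
    ring
  rw [h8]
  linarith

/-- Few large traces. -/
theorem few (A : Matrix (Fin m) (Fin n) ℝ) (lam : ℝ) (hlam : 0 < lam) (X : Finset (Fin n))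
    (hp : ∑ j ∈ X, wt A (lam ^ 2) j ≤ 1 / (2 + exc A (lam ^ 2)) * ∑ j, wt A (lam ^ 2) j) :
    2 * (univ.filter (fun i => 2 * lam < ∑ l ∈ X, A i l)).card ≤ X.card := by
  classical
  have hc : 0 < lam ^ 2 := by positivity
  have hE := exc_nonneg A (lam ^ 2) hc
  have h1 := indicator A (lam ^ 2) hc X
  rw [wt_sum A _ hc] at hp
  have h2 : 1 / (2 + exc A (lam ^ 2)) * (lam ^ 2 * exc A (lam ^ 2)) ≤ lam ^ 2 := by
    rw [div_mul_eq_mul_div, one_mul, div_le_iff₀ (by linarith)]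
    nlinarith
  set N := univ.filter (fun i => 2 * lam < ∑ l ∈ X, A i l) with hN
  have h3 : (N.card : ℝ) * (4 * lam ^ 2) ≤ ∑ i, (∑ l ∈ X, A i l) ^ 2 := by
    calc (N.card : ℝ) * (4 * lam ^ 2) = ∑ i ∈ N, 4 * lam ^ 2 := by
          rw [Finset.sum_const, nsmul_eq_mul]
      _ ≤ ∑ i ∈ N, (∑ l ∈ X, A i l) ^ 2 := by
          refine Finset.sum_le_sum fun i hi => ?_
          have := (mem_filter.1 hi).2
          nlinarith
      _ ≤ _ := Finset.sum_le_sum_of_subset_of_nonneg (subset_univ _) fun i _ _ => sq_nonneg _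
  have h4 : (X.card : ℝ) * (lam ^ 2 + ∑ j ∈ X, wt A (lam ^ 2) j) ≤ X.card * (2 * lam ^ 2) :=
    mul_le_mul_of_nonneg_left (by linarith) (Nat.cast_nonneg _)
  have h5 : (N.card : ℝ) * (4 * lam ^ 2) ≤ X.card * (2 * lam ^ 2) := h3.trans (h1.trans h4)
  have h7 : (N.card : ℝ) * 2 ≤ X.card := by
    have h8 : (N.card : ℝ) * 2 * (2 * lam ^ 2) ≤ X.card * (2 * lam ^ 2) := by linarith
    exact le_of_mul_le_mul_right h8 (by positivity)
  have h9 : ((2 * N.card : ℕ) : ℝ) ≤ (X.card : ℝ) := by push_cast; linarith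
  exact_mod_cast h9

/-- the trace -/
theorem ev_sum (A : Matrix (Fin m) (Fin n) ℝ) : ∑ k, ev A k = ∑ j, ∑ i, A i j ^ 2 := by
  simp only [ev_eq]
  rw [Finset.sum_comm, Finset.sum_comm (s := (univ : Finset (Fin n)))]
  refine Finset.sum_congr rfl fun i _ => ?_
  rw [← parseval A (fun j => A i j)]
  refine Finset.sum_congr rfl fun k _ => ?_
  congr 1
  exact Finset.sum_congr rfl fun j _ => mul_comm _ _

/-- The eigenvalues are at most the product of the number of nonzero entries in a row and the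
square norm of a column. -/
theorem ev_le (A : Matrix (Fin m) (Fin n) ℝ) (c : ℝ) (r : ℕ)
    (hcol : ∀ j, ∑ i, A i j ^ 2 ≤ c) (hr : ∀ i, (univ.filter (fun j => A i j ≠ 0)).card ≤ r)
    (k : Fin n) : ev A k ≤ r * c := by
  classical
  rw [ev_eq]
  set u : Fin n → ℝ := fun l => (eb A k) l with hu
  have h1 : ∀ i, (∑ l, A i l * u l) ^ 2 ≤ r * ∑ l, A i l ^ 2 * u l ^ 2 := by
    intro i
    have e1 : ∑ l, A i l * u l = ∑ l ∈ univ.filter (fun j => A i j ≠ 0), A i l * u l := by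
      rw [Finset.sum_filter]
      refine Finset.sum_congr rfl fun l _ => ?_
      by_cases h : A i l = 0 <;> simp [h]
    have e2 : ∑ l ∈ univ.filter (fun j => A i j ≠ 0), (A i l * u l) ^ 2 ≤
        ∑ l, A i l ^ 2 * u l ^ 2 := by
      have : ∀ l, (A i l * u l) ^ 2 = A i l ^ 2 * u l ^ 2 := fun l => mul_pow _ _ _
      simp only [this]
      exact Finset.sum_le_sum_of_subset_of_nonneg (subset_univ _) fun l _ _ => by positivity
    rw [e1]
    refine (sq_sum_le_card_mul_sum_sq).trans ?_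
    have h3 : ((univ.filter (fun j => A i j ≠ 0)).card : ℝ) ≤ r := by exact_mod_cast hr i
    exact mul_le_mul h3 e2 (Finset.sum_nonneg fun l _ => sq_nonneg _) (Nat.cast_nonneg _)
  calc ∑ i, (∑ l, A i l * u l) ^ 2 ≤ ∑ i, r * ∑ l, A i l ^ 2 * u l ^ 2 :=
        Finset.sum_le_sum fun i _ => h1 i
    _ = r * ∑ l, (∑ i, A i l ^ 2) * u l ^ 2 := by
        rw [← Finset.mul_sum, Finset.sum_comm]
        congr 1
        exact Finset.sum_congr rfl fun l _ => by rw [Finset.sum_mul]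
    _ ≤ r * ∑ l, c * u l ^ 2 := by
        gcongr with l
        exact hcol l
    _ = r * c := by
        rw [← Finset.mul_sum, hu, eb_sq, mul_one]

/-- the excess is at most `N r` and at most `n` -/
theorem exc_le (A : Matrix (Fin m) (Fin n) ℝ) (c K : ℝ) (r N : ℕ) (hc : 0 < c) (hK : 1 ≤ K)
    (hcol : ∀ j, ∑ i, A i j ^ 2 ≤ c) (hr : ∀ i, (univ.filter (fun j => A i j ≠ 0)).card ≤ r)
    (hN : (univ.filter (fun k => K ^ 2 * c < ev A k)).card ≤ N) :
    exc A (K ^ 2 * c) ≤ min (N * r : ℝ) n := by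
  have hK2 : 1 ≤ K ^ 2 := by nlinarith
  have hKc : 0 < K ^ 2 * c := by positivity
  have hcK : c ≤ K ^ 2 * c := by nlinarith
  refine le_min ?_ ?_
  · unfold exc
    calc _ ≤ ∑ k ∈ univ.filter (fun k => K ^ 2 * c < ev A k), (r : ℝ) := by
          refine Finset.sum_le_sum fun k _ => ?_
          have h1 := ev_le A c r hcol hr k
          rw [div_le_iff₀ hKc]
          have hr0 : (0 : ℝ) ≤ r := Nat.cast_nonneg _
          have : (r : ℝ) * c ≤ r * (K ^ 2 * c) := mul_le_mul_of_nonneg_left hcK hr0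
          linarith
      _ ≤ N * r := by
          rw [Finset.sum_const, nsmul_eq_mul]
          have : ((univ.filter (fun k => K ^ 2 * c < ev A k)).card : ℝ) ≤ N := by
            exact_mod_cast hN
          exact mul_le_mul_of_nonneg_right this (Nat.cast_nonneg _)
  · have h1 : exc A (K ^ 2 * c) ≤ ∑ k, ev A k / (K ^ 2 * c) :=
      Finset.sum_le_sum_of_subset_of_nonneg (subset_univ _) fun k _ _ =>
        div_nonneg (ev_nonneg A k) hKc.le
    refine h1.trans ?_
    rw [← Finset.sum_div, ev_sum, div_le_iff₀ hKc]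
    calc ∑ j, ∑ i, A i j ^ 2 ≤ ∑ _j : Fin n, c := Finset.sum_le_sum fun j _ => hcol j
      _ = n * c := by simp
      _ ≤ n * (K ^ 2 * c) := mul_le_mul_of_nonneg_left hcK (Nat.cast_nonneg _)

end Pool.Agent.R522.Spec
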