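import Mathlib
import Pool.Agent.Y963.BF.Lin
import Pool.Agent.R522.Spec.Gram
import Pool.Agent.R522.Spec.Frac

/-!
# Signings of matrices dominated by a matrix with few large singular values
-/

set_option autoImplicit false

namespace Pool.Agent.R522.Spec

open Finset Pool.Agent.Y963.BF

variable {m n : ℕ}

/-- the main error term -/
noncomputable def err (t L : ℝ) : ℝ :=
  Real.sqrt t + (1 + Real.log t) ^ (3 / 2 : ℝ) * Real.sqrt L

theorem err_nonneg (t L : ℝ) (ht : 1 ≤ t) : 0 ≤ err t L := by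
  have hlt : 0 ≤ Real.log t := Real.log_nonneg ht
  unfold err
  positivity

theorem fin_le_err (t ε L : ℝ) (c : ℝ) (hc : 1 ≤ c) (ht : 1 ≤ t)
    (hL : Real.log (1 / ε) ≤ c ^ 2 * L) :
    H167KL.fin t ε ≤ 1000000 * c * err t L := by
  have hlt : 0 ≤ Real.log t := Real.log_nonneg ht
  have h1 : Real.sqrt (Real.log (1 / ε)) ≤ c * Real.sqrt L := by
    refine (Real.sqrt_le_sqrt hL).trans (le_of_eq ?_)
    rw [Real.sqrt_mul (by positivity), Real.sqrt_sq (by linarith)]
  have h2 : 0 ≤ (1 + Real.log t) ^ (3 / 2 : ℝ) := by positivity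
  have h3 := mul_le_mul_of_nonneg_left h1 h2
  have h4 : 0 ≤ Real.sqrt t := Real.sqrt_nonneg _
  have h5 : 0 ≤ c * Real.sqrt L := by positivity
  have h6 : 0 ≤ (1 + Real.log t) ^ (3 / 2 : ℝ) * (c * Real.sqrt L) := mul_nonneg h2 h5
  have h7 : Real.sqrt t ≤ c * Real.sqrt t := by nlinarith
  unfold H167KL.fin err
  nlinarith

/-- small ground sets -/
theorem tiny (a : Fin m → Fin n → ℝ) (t : ℝ) (ht : 1 ≤ t)
    (a1 : ∀ i j, |a i j| ≤ 1) (hcol : ∀ j, ∑ i, a i j ^ 2 ≤ t) (q : ℕ) (X : Finset (Fin n))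
    (hX : X.card ≤ q) :
    ∃ e : Fin n → ℝ, (∀ j, e j = 1 ∨ e j = -1) ∧
      ∀ i, |∑ j ∈ X, a i j * e j| ≤ H167KL.fin t (1 / (2 + q)) := by
  classical
  obtain ⟨x, hx1, hx2, hx3⟩ := H167KL.weighted (fun i j => if j ∈ X then a i j else 0) t ht
    (by
      intro i j
      split_ifs
      · exact a1 i j
      · simp)
    (by
      intro j
      split_ifs
      · exact hcol j
      · simp; linarith)
    (1 / (2 + q)) (by positivity)
    (one_div_le_one_div_of_le (by norm_num) (by
      have : (0 : ℝ) ≤ q := Nat.cast_nonneg _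
      linarith))
    (fun j => if j ∈ X then 1 else 0) (fun j => by split_ifs <;> norm_num)
  have hal : ∀ j ∈ X, |x j| = 1 := by
    intro j hj
    by_contra hc
    have hlt : |x j| < 1 := lt_of_le_of_ne (hx1 j) hc
    have h1 : (1 : ℝ) ≤ ∑ j, (if |x j| < 1 then (if j ∈ X then (1 : ℝ) else 0) else 0) := by
      refine le_trans (le_of_eq ?_) (Finset.single_le_sum
        (f := fun j => if |x j| < 1 then (if j ∈ X then (1 : ℝ) else 0) else 0)
        (fun i _ => by split_ifs <;> norm_num) (mem_univ j))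
      simp [hlt, hj]
    have h2 : ∑ j, (if j ∈ X then (1 : ℝ) else 0) = X.card := by simp
    rw [h2] at hx3
    have h3 : (1 : ℝ) / (2 + q) * X.card < 1 := by
      rw [div_mul_eq_mul_div, one_mul, div_lt_one (by positivity)]
      have : (X.card : ℝ) ≤ q := by exact_mod_cast hX
      linarith
    linarith
  refine ⟨fun j => if 0 < x j then 1 else -1, fun j => by dsimp only; split_ifs <;> simp,
    fun i => ?_⟩
  have e1 : ∑ j ∈ X, a i j * (if 0 < x j then (1 : ℝ) else -1) =
      ∑ j, (if j ∈ X then a i j else 0) * x j := by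
    simp only [ite_mul, zero_mul]
    rw [← Finset.sum_filter, Finset.filter_mem_eq_inter, Finset.univ_inter]
    refine Finset.sum_congr rfl fun j hj => ?_
    rcases (abs_eq zero_le_one).1 (hal j hj) with h | h
    · rw [h]; simp
    · rw [h, if_neg (by norm_num)]
  rw [e1]
  exact hx2 i

theorem core (a : Fin m → Fin n → ℝ) (t : ℝ) (ht : 1 ≤ t)
    (a1 : ∀ i j, |a i j| ≤ 1) (hcol : ∀ j, ∑ i, a i j ^ 2 ≤ t) (E : Finset (Fin m))
    (A : Matrix (Fin m) (Fin n) ℝ) (b : Fin m → ℝ) (lam : ℝ) (hb : ∀ i, 0 ≤ b i)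
    (hlam : 0 < lam) (hdom : ∀ i, i ∉ E → ∀ j, |a i j| ≤ b i * A i j) :
    ∃ χ : Fin n → ℝ, (∀ j, χ j = 1 ∨ χ j = -1) ∧
      ∀ i, |∑ j, a i j * χ j| ≤
        5000000 * err t (Real.log (2 + exc A (lam ^ 2) + E.card)) + 4 * lam * b i := by
  classical
  have hE := exc_nonneg A (lam ^ 2) (by positivity)
  have hEc : (0 : ℝ) ≤ E.card := Nat.cast_nonneg _
  set ε : ℝ := 1 / (2 + exc A (lam ^ 2)) with hε
  have hε0 : 0 < ε := by positivity
  have hε2 : ε ≤ 1 / 2 := by
    rw [hε]
    exact one_div_le_one_div_of_le (by norm_num) (by linarith)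
  set p := wt A (lam ^ 2) with hp
  have hp0 : ∀ j, 0 ≤ p j := wt_nonneg A _
  obtain ⟨x0, hx1, hx2, hx3⟩ := H167KL.weighted a t ht a1 hcol ε hε0 hε2 p hp0
  set T : Fin m → ℝ := fun i => 2 * lam * b i with hT
  have hT0 : ∀ i, 0 ≤ T i := fun i => mul_nonneg (by positivity) (hb i)
  have hF : ∑ j ∈ alive x0, p j ≤ ε * ∑ j, p j := by
    refine le_trans (le_of_eq ?_) hx3
    unfold alive
    rw [Finset.sum_filter]
  obtain ⟨x1, y1, y2, y3, y4, y5⟩ := frac a T hT0 E (alive x0) (2 * E.card) (by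
      intro Y hY hq
      have h1 : ∑ j ∈ Y, p j ≤ ε * ∑ j, p j :=
        (Finset.sum_le_sum_of_subset_of_nonneg hY fun j _ _ => hp0 j).trans hF
      have h2 := few A lam hlam Y h1
      have h3 : (univ.filter (fun i => i ∉ E ∧ T i < ∑ j ∈ Y, |a i j|)).card ≤
          (univ.filter (fun i => 2 * lam < ∑ l ∈ Y, A i l)).card := by
        refine Finset.card_le_card fun i hi => ?_
        rw [mem_filter] at hi ⊢
        refine ⟨mem_univ _, ?_⟩
        have h3 : ∑ j ∈ Y, |a i j| ≤ b i * ∑ j ∈ Y, A i j := by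
          rw [Finset.mul_sum]
          exact Finset.sum_le_sum fun j _ => hdom i hi.2.1 j
        have h4 := hi.2.2.trans_le h3
        have hbi : 0 < b i := by
          rcases (hb i).lt_or_eq with h | h
          · exact h
          · simp only [hT, ← h] at h4
            simp at h4
        have h5 : b i * (2 * lam) < b i * ∑ j ∈ Y, A i j := by
          simp only [hT] at h4
          linarith
        exact lt_of_mul_lt_mul_left h5 hbi.le
      omega) x0 hx1 (by
      intro j hj
      by_contra hc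
      exact hj (mem_filter.2 ⟨mem_univ _, lt_of_le_of_ne (hx1 j) hc⟩))
  set D : ℝ := H167KL.fin t (1 / (2 + ((2 * E.card : ℕ) : ℝ))) with hD
  have hD0 : 0 ≤ D := by
    have hlt : 0 ≤ Real.log t := Real.log_nonneg ht
    rw [hD]
    unfold H167KL.fin
    positivity
  obtain ⟨χ, z1, z2⟩ := Lin.lin a (fun _ => D) (fun _ => hD0) (alive x1) (fun X hX =>
    tiny a t ht a1 hcol (2 * E.card) X ((card_le_card hX).trans y3)) x1 y1 (by
      intro j hj
      by_contra hc
      exact hj (mem_filter.2 ⟨mem_univ _, lt_of_le_of_ne (y1 j) hc⟩))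
  refine ⟨χ, z1, fun i => ?_⟩
  have e : ∑ j, a i j * χ j =
      ∑ j, a i j * x0 j + ∑ j, a i j * (x1 j - x0 j) + ∑ j, a i j * (χ j - x1 j) := by
    rw [← Finset.sum_add_distrib, ← Finset.sum_add_distrib]
    exact sum_congr rfl fun j _ => by ring
  have w1 : |∑ j, a i j * (x1 j - x0 j)| ≤ 4 * lam * b i := by
    by_cases hi : i ∈ E
    · rw [y4 i hi, abs_zero]
      exact mul_nonneg (by positivity) (hb i)
    · refine (y5 i hi).trans (le_of_eq ?_)
      simp only [hT]
      ring
  set L := Real.log (2 + exc A (lam ^ 2) + E.card) with hL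
  have w2 : H167KL.fin t ε ≤ 1000000 * 1 * err t L := by
    refine fin_le_err t ε L 1 le_rfl ht ?_
    rw [hε, one_div_one_div, hL]
    have : Real.log (2 + exc A (lam ^ 2)) ≤ Real.log (2 + exc A (lam ^ 2) + E.card) :=
      Real.log_le_log (by linarith) (by linarith)
    linarith
  have w3 : D ≤ 1000000 * 2 * err t L := by
    rw [hD]
    refine fin_le_err t _ L 2 (by norm_num) ht ?_
    rw [one_div_one_div, hL]
    push_cast
    have h1 : Real.log (2 + 2 * (E.card : ℝ)) ≤ Real.log ((2 + exc A (lam ^ 2) + E.card) ^ 2) := by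
      apply Real.log_le_log (by linarith)
      nlinarith
    rw [Real.log_pow] at h1
    have h2 : 0 ≤ Real.log (2 + exc A (lam ^ 2) + E.card) := Real.log_nonneg (by linarith)
    push_cast at h1
    linarith
  rw [e]
  calc _ ≤ |∑ j, a i j * x0 j| + |∑ j, a i j * (x1 j - x0 j)| + |∑ j, a i j * (χ j - x1 j)| :=
        (abs_add_le _ _).trans (add_le_add (abs_add_le _ _) le_rfl)
    _ ≤ H167KL.fin t ε + 4 * lam * b i + 2 * D := add_le_add (add_le_add (hx2 i) w1) (z2 i)
    _ ≤ _ := by linarith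

end Pool.Agent.R522.Spec
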