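import Mathlib
import Pool.Agent.R522.Spec.Core

/-!
# Numerical lemmas for the error term
-/

set_option autoImplicit false

namespace Pool.Agent.R522.Spec

open Finset

/-- `(1 + log t)^(3/2) ≤ 6 √t` -/
theorem log_pow_le (t : ℝ) (ht : 1 ≤ t) :
    (1 + Real.log t) ^ (3 / 2 : ℝ) ≤ 6 * Real.sqrt t := by
  have ht0 : 0 < t := by linarith
  set c : ℝ := t ^ (1 / 3 : ℝ) with hc
  have hc0 : 0 < c := Real.rpow_pos_of_pos ht0 _
  have hl : Real.log t = 3 * Real.log c := by
    rw [hc, Real.log_rpow ht0]; ring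
  have h1 : 1 + Real.log t ≤ 3 * c := by
    have := Real.log_le_sub_one_of_pos hc0
    rw [hl]; linarith
  have hlt : 0 ≤ Real.log t := Real.log_nonneg ht
  calc (1 + Real.log t) ^ (3 / 2 : ℝ) ≤ (3 * c) ^ (3 / 2 : ℝ) :=
        Real.rpow_le_rpow (by linarith) h1 (by norm_num)
    _ = 3 ^ (3 / 2 : ℝ) * Real.sqrt t := by
        rw [Real.mul_rpow (by norm_num) hc0.le, hc, ← Real.rpow_mul ht0.le,
          Real.sqrt_eq_rpow]
        norm_num
    _ ≤ 6 * Real.sqrt t := by
        gcongr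
        have h5 : (3 : ℝ) ^ (3 / 2 : ℝ) = 3 * Real.sqrt 3 := by
          rw [show (3 / 2 : ℝ) = 1 + 1 / 2 by norm_num, Real.rpow_add (by norm_num),
            Real.rpow_one, ← Real.sqrt_eq_rpow]
        have h6 : Real.sqrt 3 ≤ 2 := by
          rw [Real.sqrt_le_left (by norm_num)]
          norm_num
        linarith

/-- the error term is `O(√t)` if `κ ≤ exp (t / (1 + log t)^3)` -/
theorem err_le (t κ : ℝ) (ht : 1 ≤ t) (hκ0 : 0 ≤ κ)
    (hκ : κ ≤ Real.exp (t / (1 + Real.log t) ^ 3)) :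
    err t (Real.log (2 + κ)) ≤ 20 * Real.sqrt t := by
  have hlt : 0 ≤ Real.log t := Real.log_nonneg ht
  have hst : 1 ≤ Real.sqrt t := Real.one_le_sqrt.2 ht
  set q : ℝ := (1 + Real.log t) ^ (3 / 2 : ℝ) with hq
  have hq0 : 0 < q := Real.rpow_pos_of_pos (by linarith) _
  have hq2 : q ^ 2 = (1 + Real.log t) ^ 3 := by
    rw [hq, ← Real.rpow_natCast, ← Real.rpow_mul (by linarith), ← Real.rpow_natCast]
    norm_num
  have hx0 : 0 ≤ t / (1 + Real.log t) ^ 3 := by positivity
  have h1 : Real.log (2 + κ) ≤ 2 + t / (1 + Real.log t) ^ 3 := by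
    have e1 : 2 + κ ≤ 3 * Real.exp (t / (1 + Real.log t) ^ 3) := by
      have := Real.one_le_exp hx0
      linarith
    have e2 := Real.log_le_log (by linarith) e1
    rw [Real.log_mul (by norm_num) (Real.exp_pos _).ne', Real.log_exp] at e2
    have e3 : Real.log 3 ≤ 2 := by
      have := Real.log_le_sub_one_of_pos (by norm_num : (0 : ℝ) < 3)
      linarith
    linarith
  have h3 : Real.sqrt (Real.log (2 + κ)) ≤ 2 + Real.sqrt t / q := by
    refine Real.sqrt_le_iff.2 ⟨by positivity, h1.trans ?_⟩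
    have e1 : (Real.sqrt t / q) ^ 2 = t / (1 + Real.log t) ^ 3 := by
      rw [div_pow, hq2, Real.sq_sqrt (by linarith)]
    have h4 : 0 ≤ Real.sqrt t / q := by positivity
    nlinarith
  have h5 : q * Real.sqrt (Real.log (2 + κ)) ≤ 13 * Real.sqrt t := by
    calc q * Real.sqrt (Real.log (2 + κ)) ≤ q * (2 + Real.sqrt t / q) := by gcongr
      _ = 2 * q + Real.sqrt t := by field_simp
      _ ≤ _ := by
          have := log_pow_le t ht
          linarith
  unfold err
  linarith

theorem err_mono (t : ℝ) (ht : 1 ≤ t) {x y : ℝ} (hx : 0 ≤ x) (hxy : x ≤ y) :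
    err t (Real.log (2 + x)) ≤ err t (Real.log (2 + y)) := by
  have hlt : 0 ≤ Real.log t := Real.log_nonneg ht
  have h1 : Real.log (2 + x) ≤ Real.log (2 + y) := Real.log_le_log (by linarith) (by linarith)
  have h2 := Real.sqrt_le_sqrt h1
  have h3 : 0 ≤ (1 + Real.log t) ^ (3 / 2 : ℝ) := by positivity
  have h4 := mul_le_mul_of_nonneg_left h2 h3
  unfold err
  linarith

end Pool.Agent.R522.Spec
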